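import Mathlib
import Pool.Agent.H892.ZL.Stm2

set_option autoImplicit false

/-! # ZL: base points of the second net -/

namespace Pool.Agent.H94.ZL

open Pool.Agent.H892.ZL Matrix

theorem qfB0 (e : Fin 4 → ℂ) : qf (QB 0) e = 2 * (7 * e 0 * (e 3 - e 0 - e 1 - e 2)
    - 13 * e 1 * e 2 - 3 * e 1 * (e 3 - e 0 - e 1 - e 2) + 9 * e 2 * (e 3 - e 0 - e 1 - e 2)) := by
  simp [qf, QB, QBi, dotProduct, mulVec, Fin.sum_univ_four]
  ring

theorem qfB1 (e : Fin 4 → ℂ) : qf (QB 1) e = 2 * (-7 * e 0 * e 2
    - 9 * e 1 * e 2 + 13 * e 1 * (e 3 - e 0 - e 1 - e 2) + 3 * e 2 * (e 3 - e 0 - e 1 - e 2)) := by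
  simp [qf, QB, QBi, dotProduct, mulVec, Fin.sum_univ_four]
  ring

theorem qfB2 (e : Fin 4 → ℂ) : qf (QB 2) e = 2 * (-7 * e 0 * e 1
    + 3 * e 1 * e 2 - 9 * e 1 * (e 3 - e 0 - e 1 - e 2) + 13 * e 2 * (e 3 - e 0 - e 1 - e 2)) := by
  simp [qf, QB, QBi, dotProduct, mulVec, Fin.sum_univ_four]
  ring

/-- the solutions of the three equations -/
theorem solveB (x0 x1 x2 x3 : ℂ) (h0 : 7 * x0 * x3 - 13 * x1 * x2 - 3 * x1 * x3 + 9 * x2 * x3 = 0)
    (h1 : -7 * x0 * x2 - 9 * x1 * x2 + 13 * x1 * x3 + 3 * x2 * x3 = 0)
    (h2 : -7 * x0 * x1 + 3 * x1 * x2 - 9 * x1 * x3 + 13 * x2 * x3 = 0) :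
    (x1 = 0 ∧ x2 = 0 ∧ x3 = 0) ∨ (x0 = 0 ∧ x2 = 0 ∧ x3 = 0) ∨ (x0 = 0 ∧ x1 = 0 ∧ x3 = 0) ∨
    (x0 = 0 ∧ x1 = 0 ∧ x2 = 0) ∨ ∃ c : ℂ,
      (x0 = c ∧ x1 = c ∧ x2 = c ∧ x3 = c) ∨ (x0 = 4 * c ∧ x1 = -c ∧ x2 = -2 * c ∧ x3 = 2 * c) ∨
      (x0 = 4 * c ∧ x1 = -2 * c ∧ x2 = 2 * c ∧ x3 = -c) ∨
      (x0 = 4 * c ∧ x1 = 2 * c ∧ x2 = -c ∧ x3 = -2 * c) := by
  by_cases z0 : x0 = 0
  · subst z0
    have e12 : x1 * x2 = 0 := by
      linear_combination (-196 / 2548 : ℂ) * h0 + (42 / 2548 : ℂ) * h1 + (126 / 2548 : ℂ) * h2
    have e13 : x1 * x3 = 0 := by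
      linear_combination (-126 / 2548 : ℂ) * h0 + (196 / 2548 : ℂ) * h1 + (42 / 2548 : ℂ) * h2
    have e23 : x2 * x3 = 0 := by
      linear_combination (-42 / 2548 : ℂ) * h0 + (126 / 2548 : ℂ) * h1 + (196 / 2548 : ℂ) * h2
    by_cases z1 : x1 = 0
    · by_cases z2 : x2 = 0
      · exact Or.inr (Or.inr (Or.inr (Or.inl ⟨rfl, z1, z2⟩)))
      · have z3 : x3 = 0 := (mul_eq_zero.1 e23).resolve_left z2
        exact Or.inr (Or.inr (Or.inl ⟨rfl, z1, z3⟩))
    · have z2 : x2 = 0 := (mul_eq_zero.1 e12).resolve_left z1
      have z3 : x3 = 0 := (mul_eq_zero.1 e13).resolve_left z1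
      exact Or.inr (Or.inl ⟨rfl, z2, z3⟩)
  · by_cases z1 : x1 = 0
    · subst z1
      have e23 : x2 * x3 = 0 := by linear_combination (1 / 13 : ℂ) * h2
      have e3 : x3 = 0 := by
        have : x0 * x3 = 0 := by linear_combination (1 / 7 : ℂ) * h0 - (9 / 7) * e23
        exact (mul_eq_zero.1 this).resolve_left z0
      have e2 : x2 = 0 := by
        have : x0 * x2 = 0 := by linear_combination (-1 / 7 : ℂ) * h1 + (3 / 7) * e23
        exact (mul_eq_zero.1 this).resolve_left z0
      exact Or.inl ⟨rfl, e2, e3⟩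
    · by_cases z2 : x2 = 0
      · subst z2
        have e13 : x1 * x3 = 0 := by linear_combination (1 / 13 : ℂ) * h1
        have : x0 * x1 = 0 := by linear_combination (-1 / 7 : ℂ) * h2 - (9 / 7) * e13
        exact absurd this (mul_ne_zero z0 z1)
      · by_cases z3 : x3 = 0
        · subst z3
          have e12 : x1 * x2 = 0 := by linear_combination (-1 / 13 : ℂ) * h0
          exact absurd e12 (mul_ne_zero z1 z2)
        · -- all coordinates nonzero
          obtain ⟨a, ha⟩ : ∃ a, a * x1 = x0 := ⟨x0 / x1, div_mul_cancel₀ _ z1⟩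
          obtain ⟨b, hb⟩ : ∃ b, b * x2 = x0 := ⟨x0 / x2, div_mul_cancel₀ _ z2⟩
          obtain ⟨c, hc⟩ : ∃ c, c * x3 = x0 := ⟨x0 / x3, div_mul_cancel₀ _ z3⟩
          have hn : x1 * x2 * x3 ≠ 0 := mul_ne_zero (mul_ne_zero z1 z2) z3
          have A : 7 * a * b - 13 * c - 3 * b + 9 * a = 0 := by
            apply (mul_eq_zero.1 (?_ : (x1 * x2 * x3) * (7 * a * b - 13 * c - 3 * b + 9 * a) = 0)).resolve_left hn
            linear_combination x0 * h0 + (7 * b * x2 * x3 + 9 * x2 * x3) * ha +
              (7 * x0 * x3 - 3 * x1 * x3) * hb - 13 * x1 * x2 * hc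
          have B : -7 * a * c - 9 * c + 13 * b + 3 * a = 0 := by
            apply (mul_eq_zero.1 (?_ : (x1 * x2 * x3) * (-7 * a * c - 9 * c + 13 * b + 3 * a) = 0)).resolve_left hn
            linear_combination x0 * h1 + (-7 * c * x2 * x3 + 3 * x2 * x3) * ha +
              (13 * x1 * x3) * hb + (-7 * x0 * x2 - 9 * x1 * x2) * hc
          have Cc : -7 * b * c + 3 * c - 9 * b + 13 * a = 0 := by
            apply (mul_eq_zero.1 (?_ : (x1 * x2 * x3) * (-7 * b * c + 3 * c - 9 * b + 13 * a) = 0)).resolve_left hn
            linear_combination x0 * h2 + (13 * x2 * x3) * ha +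
              (-7 * c * x1 * x3 - 9 * x1 * x3) * hb + (-7 * x0 * x1 + 3 * x1 * x2) * hc
          have E1 : b * (7 * a ^ 2 + 6 * a - 28) + (9 * a ^ 2 + 6 * a) = 0 := by
            linear_combination (a + 9 / 7) * A - (13 / 7) * B
          have E2 : b ^ 2 * (7 * a - 3) + b * (6 * a + 18) - 28 * a = 0 := by
            linear_combination (b - 3 / 7) * A - (13 / 7) * Cc
          have F : a * (a - 1) * (a + 4) * (a + 2) * (a - 2) = 0 := by
            have := congrArg (fun t => t * (-1 / 1183 : ℂ)) (show
              (7 * a ^ 2 + 6 * a - 28) ^ 2 * (b ^ 2 * (7 * a - 3) + b * (6 * a + 18) - 28 * a) -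
              ((7 * a - 3) * (b * (7 * a ^ 2 + 6 * a - 28) - (9 * a ^ 2 + 6 * a)) +
                (7 * a ^ 2 + 6 * a - 28) * (6 * a + 18)) *
                (b * (7 * a ^ 2 + 6 * a - 28) + (9 * a ^ 2 + 6 * a)) = 0 by
                rw [E1, E2]; ring)
            simp only [zero_mul] at this
            rw [← this]
            ring
          have ha0 : a ≠ 0 := by
            intro h
            rw [h, zero_mul] at ha
            exact z0 ha.symm
          refine Or.inr (Or.inr (Or.inr (Or.inr ?_)))
          rcases mul_eq_zero.1 F with F | F4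
          · rcases mul_eq_zero.1 F with F | F3
            · rcases mul_eq_zero.1 F with F | F2
              · rcases mul_eq_zero.1 F with F | F1
                · exact absurd F ha0
                · -- a = 1
                  have ea : a = 1 := by linear_combination F1
                  subst ea
                  have eb : b = 1 := by linear_combination (-1 / 15 : ℂ) * E1
                  subst eb
                  have ec : c = 1 := by linear_combination (-1 / 13 : ℂ) * A
                  subst ec
                  refine ⟨x0, Or.inl ⟨rfl, ?_, ?_, ?_⟩⟩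
                  · linear_combination ha
                  · linear_combination hb
                  · linear_combination hc
              · -- a = -4
                have ea : a = -4 := by linear_combination F2
                subst ea
                have eb : b = -2 := by linear_combination (1 / 60 : ℂ) * E1
                subst eb
                have ec : c = 2 := by linear_combination (-1 / 13 : ℂ) * A
                subst ec
                refine ⟨x0 / 4, Or.inr (Or.inl ⟨?_, ?_, ?_, ?_⟩)⟩
                · ring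
                · linear_combination (-1 / 4 : ℂ) * ha
                · linear_combination (-1 / 2 : ℂ) * hb
                · linear_combination (1 / 2 : ℂ) * hc
            · -- a = -2
              have ea : a = -2 := by linear_combination F3
              subst ea
              have eb : b = 2 := by linear_combination (-1 / 12 : ℂ) * E1
              subst eb
              have ec : c = -4 := by linear_combination (-1 / 13 : ℂ) * A
              subst ec
              refine ⟨x0 / 4, Or.inr (Or.inr (Or.inl ⟨?_, ?_, ?_, ?_⟩))⟩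
              · ring
              · linear_combination (-1 / 2 : ℂ) * ha
              · linear_combination (1 / 2 : ℂ) * hb
              · linear_combination (-1 / 4 : ℂ) * hc
          · -- a = 2
            have ea : a = 2 := by linear_combination F4
            subst ea
            have eb : b = -4 := by linear_combination (1 / 12 : ℂ) * E1
            subst eb
            have ec : c = -2 := by linear_combination (-1 / 13 : ℂ) * A
            subst ec
            refine ⟨x0 / 4, Or.inr (Or.inr (Or.inr ⟨?_, ?_, ?_, ?_⟩))⟩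
            · ring
            · linear_combination (1 / 2 : ℂ) * ha
            · linear_combination (-1 / 4 : ℂ) * hb
            · linear_combination (-1 / 2 : ℂ) * hc

theorem t_BASEB : S_BASEB := by
  intro e
  constructor
  · rintro ⟨hne, hz⟩
    have h0 := hz 0
    have h1 := hz 1
    have h2 := hz 2
    rw [qfB0] at h0
    rw [qfB1] at h1
    rw [qfB2] at h2
    have k0 : 7 * e 0 * (e 3 - e 0 - e 1 - e 2) - 13 * e 1 * e 2 - 3 * e 1 * (e 3 - e 0 - e 1 - e 2)
        + 9 * e 2 * (e 3 - e 0 - e 1 - e 2) = 0 := by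
      linear_combination (1 / 2 : ℂ) * h0
    have k1 : -7 * e 0 * e 2 - 9 * e 1 * e 2 + 13 * e 1 * (e 3 - e 0 - e 1 - e 2)
        + 3 * e 2 * (e 3 - e 0 - e 1 - e 2) = 0 := by
      linear_combination (1 / 2 : ℂ) * h1
    have k2 : -7 * e 0 * e 1 + 3 * e 1 * e 2 - 9 * e 1 * (e 3 - e 0 - e 1 - e 2)
        + 13 * e 2 * (e 3 - e 0 - e 1 - e 2) = 0 := by
      linear_combination (1 / 2 : ℂ) * h2
    have key : ∀ (i : Fin 8) (c : ℂ), e = c • PB i → ∃ i, ∃ c : ℂ, c ≠ 0 ∧ e = c • PB i := by
      intro i c h
      refine ⟨i, c, ?_, h⟩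
      intro hc
      apply hne
      rw [h, hc, zero_smul]
    rcases solveB _ _ _ _ k0 k1 k2 with ⟨a1, a2, a3⟩ | ⟨a0, a2, a3⟩ | ⟨a0, a1, a3⟩ | ⟨a0, a1, a2⟩ |
      ⟨c, ⟨a0, a1, a2, a3⟩ | ⟨a0, a1, a2, a3⟩ | ⟨a0, a1, a2, a3⟩ | ⟨a0, a1, a2, a3⟩⟩
    · refine key 0 (e 0) ?_
      funext j
      fin_cases j
      · simp [PB, PBi]
      · simp [PB, PBi, a1]
      · simp [PB, PBi, a2]
      · simp [PB, PBi]
        linear_combination a3 + a1 + a2
    · refine key 1 (e 1) ?_
      funext j
      fin_cases j
      · simp [PB, PBi, a0]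
      · simp [PB, PBi]
      · simp [PB, PBi, a2]
      · simp [PB, PBi]
        linear_combination a3 + a0 + a2
    · refine key 2 (e 2) ?_
      funext j
      fin_cases j
      · simp [PB, PBi, a0]
      · simp [PB, PBi, a1]
      · simp [PB, PBi]
      · simp [PB, PBi]
        linear_combination a3 + a0 + a1
    · refine key 3 (e 3) ?_
      funext j
      fin_cases j
      · simp [PB, PBi, a0]
      · simp [PB, PBi, a1]
      · simp [PB, PBi, a2]
      · simp [PB, PBi]
    · refine key 4 c ?_
      funext j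
      fin_cases j
      · simp [PB, PBi]
        linear_combination a0
      · simp [PB, PBi]
        linear_combination a1
      · simp [PB, PBi]
        linear_combination a2
      · simp [PB, PBi]
        linear_combination a3 + a0 + a1 + a2
    · refine key 5 c ?_
      funext j
      fin_cases j
      · simp [PB, PBi]
        linear_combination a0
      · simp [PB, PBi]
        linear_combination a1
      · simp [PB, PBi]
        linear_combination a2
      · simp [PB, PBi]
        linear_combination a3 + a0 + a1 + a2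
    · refine key 6 c ?_
      funext j
      fin_cases j
      · simp [PB, PBi]
        linear_combination a0
      · simp [PB, PBi]
        linear_combination a1
      · simp [PB, PBi]
        linear_combination a2
      · simp [PB, PBi]
        linear_combination a3 + a0 + a1 + a2
    · refine key 7 c ?_
      funext j
      fin_cases j
      · simp [PB, PBi]
        linear_combination a0
      · simp [PB, PBi]
        linear_combination a1
      · simp [PB, PBi]
        linear_combination a2
      · simp [PB, PBi]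
        linear_combination a3 + a0 + a1 + a2
  · rintro ⟨i, c, hc, rfl⟩
    constructor
    · intro h
      have hs : PB i = 0 := (smul_eq_zero.1 h).resolve_left hc
      have h3 := congrFun hs 3
      fin_cases i <;> simp [PB, PBi] at h3
    · intro k
      fin_cases k
      · show qf (QB 0) (c • PB i) = 0
        rw [qfB0]
        fin_cases i <;> simp [PB, PBi] <;> ring
      · show qf (QB 1) (c • PB i) = 0
        rw [qfB1]
        fin_cases i <;> simp [PB, PBi] <;> ring
      · show qf (QB 2) (c • PB i) = 0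
        rw [qfB2]
        fin_cases i <;> simp [PB, PBi] <;> ring

end Pool.Agent.H94.ZL
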